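import Pool.Agent.helper62.MS.SpecA
import Pool.Agent.helper55.RS.OV1

/-!
# MP_07c750, project MS, row OV3: uniform bounds for the amplitude and the phase
-/

set_option autoImplicit false

open scoped MatrixGroups ContDiff Topology UpperHalfPlane ComplexConjugate
open UpperHalfPlane MeasureTheory Filter Set

namespace Pool.Agent.MS

open Pool.Agent.RS

/-- the iterated derivative along a line is the value of a smooth function -/
lemma OV3_dir {E F : Type*} [NormedAddCommGroup E] [NormedSpace ℝ E] [NormedAddCommGroup F]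
    [NormedSpace ℝ F] (U : Set E) (hU : IsOpen U) (v : E) (j : ℕ) :
    ∀ G : E → F, ContDiffOn ℝ ∞ G U → ∃ G' : E → F, ContDiffOn ℝ ∞ G' U ∧
      ∀ l : ℝ → E, (∀ x, HasDerivAt l v x) → (∀ x, l x ∈ U) →
        ∀ x, iteratedDeriv j (fun x => G (l x)) x = G' (l x) := by
  induction j with
  | zero =>
    intro G hG
    refine ⟨G, hG, fun l _ _ x => ?_⟩
    rw [iteratedDeriv_zero]
  | succ j ih =>
    intro G hG
    have h0 : ContDiffOn ℝ ∞ (fderiv ℝ G) U := hG.fderiv_of_isOpen hU (by simp)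
    have hG1 : ContDiffOn ℝ ∞ (fun q => fderiv ℝ G q v) U := h0.clm_apply contDiffOn_const
    obtain ⟨G', h1, h2⟩ := ih _ hG1
    refine ⟨G', h1, fun l hl hlU x => ?_⟩
    rw [iteratedDeriv_succ']
    have h3 : deriv (fun x => G (l x)) = fun x => fderiv ℝ G (l x) v := by
      funext y
      have h4 : HasFDerivAt G (fderiv ℝ G (l y)) (l y) :=
        ((hG.differentiableOn (by simp)).differentiableAt (hU.mem_nhds (hlU y))).hasFDerivAt
      exact (h4.comp_hasDerivAt y (hl y)).deriv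
    rw [h3]
    exact h2 l hl hlU x

/-- uniform bounds for the iterated derivatives along lines on a compact set -/
lemma OV3_bd {E F : Type*} [NormedAddCommGroup E] [NormedSpace ℝ E] [NormedAddCommGroup F]
    [NormedSpace ℝ F] (U : Set E) (hU : IsOpen U) (K : Set E) (hK : IsCompact K) (hKU : K ⊆ U)
    (v : E) (n : ℕ) (G : E → F) (hG : ContDiffOn ℝ ∞ G U) :
    ∃ M : ℝ, 0 ≤ M ∧ ∀ j ≤ n, ∀ l : ℝ → E, (∀ x, HasDerivAt l v x) → (∀ x, l x ∈ U) →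
        ∀ x, l x ∈ K → ‖iteratedDeriv j (fun x => G (l x)) x‖ ≤ M := by
  have h1 : ∀ j : ℕ, ∃ C : ℝ, ∀ l : ℝ → E, (∀ x, HasDerivAt l v x) → (∀ x, l x ∈ U) →
        ∀ x, l x ∈ K → ‖iteratedDeriv j (fun x => G (l x)) x‖ ≤ C := by
    intro j
    obtain ⟨G', h2, h3⟩ := OV3_dir U hU v j G hG
    obtain ⟨C, hC⟩ := hK.exists_bound_of_continuousOn (h2.continuousOn.mono hKU)
    refine ⟨C, fun l hl hlU x hx => ?_⟩
    rw [h3 l hl hlU x]
    exact hC _ hx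
  choose C hC using h1
  refine ⟨∑ j ∈ Finset.range (n + 1), |C j|, Finset.sum_nonneg fun _ _ => abs_nonneg _, ?_⟩
  intro j hj l hl hlU x hx
  refine (hC j l hl hlU x hx).trans ((le_abs_self _).trans ?_)
  exact Finset.single_le_sum (f := fun j => |C j|) (fun _ _ => abs_nonneg _)
    (Finset.mem_range.2 (by omega))

/-- the lines -/
abbrev OV3_E : Type := (ℝ × ℝ × ℝ × ℝ) × (ℝ × ℝ)

noncomputable section

/-- `Dk` as a function of the entries of the inverse -/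
def OV3_N (q : OV3_E) : ℝ := (q.1.2.2.1 * q.2.1 + q.1.2.2.2) ^ 2 + (q.1.2.2.1) ^ 2 * Real.exp (2 * q.2.2)

/-- the amplitude as a function of the entries of the inverse -/
def OV3_G (c : ℍ → ℂ) (q : OV3_E) : ℂ :=
  QU.onC c (OV1_A q / OV1_B q) * ((OV3_N q ^ (-(1 / 2 : ℝ)) : ℝ) : ℂ)

/-- the phase as a function of the entries of the inverse -/
def OV3_L (q : OV3_E) : ℝ := Real.log (OV3_N q)

/-- the derivative of the phase without the factor -/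
def OV3_H (q : OV3_E) : ℝ := (q.1.2.2.1 * q.2.1 + q.1.2.2.2) * (OV3_N q)⁻¹

lemma OV3_Npos (q : OV3_E) (hq : q ∈ OV1_U) : 0 < OV3_N q := by
  unfold OV3_N
  rw [OV1_nsq]
  exact Complex.normSq_pos.2 (OV1_Bne q hq)

lemma OV3_Ns : ContDiff ℝ ∞ OV3_N := by
  unfold OV3_N
  fun_prop

lemma OV3_Gs (c : ℍ → ℂ) (hc : QU.CD ∞ c) : ContDiffOn ℝ ∞ (OV3_G c) OV1_U := by
  have h0 : ContDiffOn ℝ ∞ (QU.onC c) {w : ℂ | 0 < w.im} := hc
  unfold OV3_G
  refine ContDiffOn.mul ?_ ?_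
  · refine h0.comp ?_ (fun q hq => OV1_im q hq)
    have h2 : ContDiffOn ℝ ∞ (fun q => OV1_A q * (OV1_B q)⁻¹) OV1_U :=
      (OV1_As.contDiffOn).mul ((OV1_Bs.contDiffOn).inv OV1_Bne)
    simpa only [div_eq_mul_inv] using h2
  · have h1 : ContDiffOn ℝ ∞ (fun q : OV3_E => OV3_N q ^ (-(1 / 2 : ℝ))) OV1_U :=
      ContDiffOn.rpow_const_of_ne OV3_Ns.contDiffOn fun q hq => (OV3_Npos q hq).ne'
    exact Complex.ofRealCLM.contDiff.comp_contDiffOn h1

lemma OV3_Ls : ContDiffOn ℝ ∞ OV3_L OV1_U := by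
  unfold OV3_L
  exact ContDiffOn.log OV3_Ns.contDiffOn fun q hq => (OV3_Npos q hq).ne'

lemma OV3_Hs : ContDiffOn ℝ ∞ OV3_H OV1_U := by
  unfold OV3_H
  refine ContDiffOn.mul ?_ (OV3_Ns.contDiffOn.inv fun q hq => (OV3_Npos q hq).ne')
  exact ContDiff.contDiffOn (by fun_prop)

/-- the line in the direction `x` -/
lemma OV3_lx (e : ℝ × ℝ × ℝ × ℝ) (τ : ℝ) (x : ℝ) :
    HasDerivAt (fun x : ℝ => ((e, (x, τ)) : OV3_E)) ((0, (1, 0)) : OV3_E) x :=
  (hasDerivAt_const x e).prodMk ((hasDerivAt_id x).prodMk (hasDerivAt_const x τ))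

/-- the line in the direction `τ` -/
lemma OV3_lt (e : ℝ × ℝ × ℝ × ℝ) (x : ℝ) (τ : ℝ) :
    HasDerivAt (fun τ : ℝ => ((e, (x, τ)) : OV3_E)) ((0, (0, 1)) : OV3_E) τ :=
  (hasDerivAt_const τ e).prodMk ((hasDerivAt_const τ x).prodMk (hasDerivAt_id τ))

/-- the inverse -/
lemma OV3_inv (k : SL(2, ℝ)) : (k⁻¹ : SL(2, ℝ)) 0 0 = k.1 1 1 ∧ (k⁻¹ : SL(2, ℝ)) 0 1 = -k.1 0 1 ∧
    (k⁻¹ : SL(2, ℝ)) 1 0 = -k.1 1 0 ∧ (k⁻¹ : SL(2, ℝ)) 1 1 = k.1 0 0 := by
  rw [Matrix.SpecialLinearGroup.SL2_inv_expl]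
  exact ⟨rfl, rfl, rfl, rfl⟩

lemma OV3_Dk (k : SL(2, ℝ)) (x τ : ℝ) : Dk k x τ = OV3_N (OV1_e k⁻¹, (x, τ)) := by
  obtain ⟨_, _, h3, h4⟩ := OV3_inv k
  unfold OV3_N Dk OV1_e
  simp only []
  rw [h3, h4]
  ring

lemma OV3_am (c : ℍ → ℂ) (k : SL(2, ℝ)) (x τ : ℝ) : amk c k x τ = OV3_G c (OV1_e k⁻¹, (x, τ)) := by
  unfold amk OV3_G
  rw [OV3_Dk]
  have h2 : QU.onC c (OV1_A (OV1_e k⁻¹, (x, τ)) / OV1_B (OV1_e k⁻¹, (x, τ))) =
      c (k⁻¹ • pt x τ) := by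
    rw [← QU.CA1_val c (k⁻¹ • pt x τ), OV1_coe, OV1_pt]
    rfl
  rw [h2]

lemma OV3_e1 (τ : ℝ) (h : |τ| ≤ 1 / 4) : 3 / 5 ≤ Real.exp (2 * τ) ∧ Real.exp (2 * τ) ≤ 2 := by
  obtain ⟨h1, h2⟩ := abs_le.1 h
  have h3 : Real.exp (1 / 2) ≤ 5 / 3 := by
    have h4 : Real.exp (1 / 2) * Real.exp (1 / 2) = Real.exp 1 := by
      rw [← Real.exp_add]
      norm_num
    have h5 := Real.exp_one_lt_d9
    have h6 := Real.exp_pos (1 / 2)
    nlinarith
  constructor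
  · have h7 : Real.exp (-(1 / 2)) ≤ Real.exp (2 * τ) := Real.exp_le_exp.2 (by linarith)
    have h8 : Real.exp (-(1 / 2)) * Real.exp (1 / 2) = 1 := by
      rw [← Real.exp_add]
      norm_num
    have h9 := Real.exp_pos (-(1 / 2))
    nlinarith
  · have h7 : Real.exp (2 * τ) ≤ Real.exp (1 / 2) := Real.exp_le_exp.2 (by linarith)
    linarith

lemma OV3_low (a b c d x τ : ℝ) (ha : |a| ≤ 3) (hb : |b| ≤ 3) (hc : |c| ≤ 3) (hd : |d| ≤ 3)
    (hdet : a * d - b * c = 1) (hx : |x| ≤ 1 / 4) (hτ : |τ| ≤ 1 / 4) :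
    1 / 200 ≤ (a - c * x) ^ 2 + c ^ 2 * Real.exp (2 * τ) ∧
      (a - c * x) ^ 2 + c ^ 2 * Real.exp (2 * τ) ≤ 60 := by
  obtain ⟨e1, e2⟩ := OV3_e1 τ hτ
  have hcx : |c * x| ≤ |c| * (1 / 4) := by
    rw [abs_mul]
    exact mul_le_mul_of_nonneg_left hx (abs_nonneg _)
  constructor
  · by_cases h : 1 / 8 ≤ |c|
    · have h1 : (1 / 8 : ℝ) ^ 2 ≤ c ^ 2 := by
        rw [← sq_abs c]
        exact pow_le_pow_left₀ (by norm_num) h 2
      have h2 : c ^ 2 * (3 / 5) ≤ c ^ 2 * Real.exp (2 * τ) :=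
        mul_le_mul_of_nonneg_left e1 (sq_nonneg _)
      nlinarith [sq_nonneg (a - c * x)]
    · push Not at h
      have h1 : |b * c| ≤ 3 * (1 / 8) := by
        rw [abs_mul]
        exact mul_le_mul hb h.le (abs_nonneg _) (by norm_num)
      have h2 : 5 / 8 ≤ |a * d| := by
        have h3 : a * d = 1 + b * c := by linarith
        rw [h3]
        have h4 := (abs_le.1 h1).1
        refine le_trans ?_ (le_abs_self _)
        linarith
      have h3 : 5 / 24 ≤ |a| := by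
        rw [abs_mul] at h2
        have h4 : |a| * |d| ≤ |a| * 3 := mul_le_mul_of_nonneg_left hd (abs_nonneg _)
        linarith
      have h5 : |a| - |c * x| ≤ |a - c * x| := abs_sub_abs_le_abs_sub _ _
      have h6 : 17 / 96 ≤ |a - c * x| := by
        linarith
      have h7 : (17 / 96 : ℝ) ^ 2 ≤ (a - c * x) ^ 2 := by
        rw [← sq_abs (a - c * x)]
        exact pow_le_pow_left₀ (by norm_num) h6 2
      have h8 : 0 ≤ c ^ 2 * Real.exp (2 * τ) := by positivity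
      norm_num at h7
      linarith
  · have h1 : |a - c * x| ≤ 15 / 4 := by
      refine (abs_sub _ _).trans ?_
      linarith
    have h2 : (a - c * x) ^ 2 ≤ (15 / 4) ^ 2 := by
      rw [← sq_abs (a - c * x)]
      exact pow_le_pow_left₀ (abs_nonneg _) h1 2
    have h3 : c ^ 2 ≤ 3 ^ 2 := by
      rw [← sq_abs c]
      exact pow_le_pow_left₀ (abs_nonneg _) hc 2
    have h4 : c ^ 2 * Real.exp (2 * τ) ≤ 3 ^ 2 * 2 := mul_le_mul h3 e2 (Real.exp_pos _).le (by norm_num)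
    norm_num at h2 h4
    linarith

lemma OV3_dx (k : SL(2, ℝ)) (x τ : ℝ) (h : 0 < Dk k x τ) :
    HasDerivAt (fun x => Real.log (Dk k x τ))
      (-2 * k.1 1 0 * (k.1 0 0 - k.1 1 0 * x) / Dk k x τ) x := by
  have h1 : HasDerivAt (fun x => Dk k x τ) (-2 * k.1 1 0 * (k.1 0 0 - k.1 1 0 * x)) x := by
    have h2 : HasDerivAt (fun x : ℝ => k.1 0 0 - k.1 1 0 * x) (-(k.1 1 0)) x := by
      have h3 := ((hasDerivAt_id x).const_mul (k.1 1 0)).const_sub (k.1 0 0)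
      simpa using h3
    have h4 := (h2.pow 2).add_const (k.1 1 0 ^ 2 * Real.exp (2 * τ))
    have h5 : (fun x : ℝ => Dk k x τ) = fun x => ((fun x : ℝ => k.1 0 0 - k.1 1 0 * x) ^ 2) x +
        k.1 1 0 ^ 2 * Real.exp (2 * τ) := rfl
    rw [h5]
    refine h4.congr_deriv ?_
    simp only [Nat.cast_ofNat, Nat.add_one_sub_one, pow_one]
    ring
  exact h1.log h.ne'

lemma OV3_dt (k : SL(2, ℝ)) (x τ : ℝ) (h : 0 < Dk k x τ) :
    HasDerivAt (fun τ => Real.log (Dk k x τ))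
      (2 * k.1 1 0 ^ 2 * Real.exp (2 * τ) / Dk k x τ) τ := by
  have h1 : HasDerivAt (fun τ => Dk k x τ) (2 * k.1 1 0 ^ 2 * Real.exp (2 * τ)) τ := by
    have h2 : HasDerivAt (fun τ : ℝ => Real.exp (2 * τ)) (Real.exp (2 * τ) * 2) τ := by
      have h3 := ((hasDerivAt_id τ).const_mul 2).exp
      simpa using h3
    have h4 := (h2.const_mul (k.1 1 0 ^ 2)).const_add ((k.1 0 0 - k.1 1 0 * x) ^ 2)
    refine h4.congr_deriv ?_
    ring
  exact h1.log h.ne'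

theorem OV3_proof : OV3_stmt := by
  intro c hc
  obtain ⟨KK, hKK⟩ : ∃ KK : Set OV3_E, KK =
    ((Icc (-3) 3 ×ˢ (Icc (-3) 3 ×ˢ (Icc (-3) 3 ×ˢ Icc (-3) 3))) ×ˢ
      (Icc (-(1 / 4)) (1 / 4) ×ˢ Icc (-(1 / 4)) (1 / 4))) ∩
      {q | q.1.1 * q.1.2.2.2 - q.1.2.1 * q.1.2.2.1 = 1} := ⟨_, rfl⟩
  have hKc : IsCompact KK := by
    rw [hKK]
    refine IsCompact.inter_right ?_ ?_
    · exact (isCompact_Icc.prod (isCompact_Icc.prod (isCompact_Icc.prod isCompact_Icc))).prod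
        (isCompact_Icc.prod isCompact_Icc)
    · exact isClosed_eq (by fun_prop) continuous_const
  have hKU : KK ⊆ OV1_U := by
    intro q hq
    rw [hKK] at hq
    show 0 < (OV1_A q * conj (OV1_B q)).im
    rw [OV1_val, hq.2, one_mul]
    exact Real.exp_pos _
  have hG := OV3_Gs c hc.1
  obtain ⟨M1, hM1, hb1⟩ := OV3_bd OV1_U OV1_Uo KK hKc hKU ((0, (1, 0)) : OV3_E) 2 (OV3_G c) hG
  obtain ⟨M2, hM2, hb2⟩ := OV3_bd OV1_U OV1_Uo KK hKc hKU ((0, (0, 1)) : OV3_E) 2 (OV3_G c) hG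
  obtain ⟨M3, hM3, hb3⟩ := OV3_bd OV1_U OV1_Uo KK hKc hKU ((0, (0, 1)) : OV3_E) 3 OV3_L OV3_Ls
  obtain ⟨M4, hM4, hb4⟩ := OV3_bd OV1_U OV1_Uo KK hKc hKU ((0, (1, 0)) : OV3_E) 2 OV3_H OV3_Hs
  refine ⟨1 + M1 + M2 + M3 + 2 * M4, by positivity, ?_⟩
  intro k hk
  have hmU : ∀ x τ : ℝ, ((OV1_e k⁻¹, (x, τ)) : OV3_E) ∈ OV1_U := fun x τ => OV1_mem _ _
  have hDpos : ∀ x τ : ℝ, 0 < Dk k x τ := by
    intro x τ
    rw [OV3_Dk]
    exact OV3_Npos _ (hmU x τ)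
  have hcx : ∀ τ : ℝ, ContDiff ℝ ∞ (fun x : ℝ => ((OV1_e k⁻¹, (x, τ)) : OV3_E)) := fun τ =>
    contDiff_const.prodMk (contDiff_id.prodMk contDiff_const)
  have hct : ∀ x : ℝ, ContDiff ℝ ∞ (fun τ : ℝ => ((OV1_e k⁻¹, (x, τ)) : OV3_E)) := fun x =>
    contDiff_const.prodMk (contDiff_const.prodMk contDiff_id)
  have eax : ∀ τ : ℝ, (fun x => amk c k x τ) = fun x => OV3_G c (OV1_e k⁻¹, (x, τ)) := fun τ => by
    funext x
    exact OV3_am c k x τ
  have eat : ∀ x : ℝ, (fun τ => amk c k x τ) = fun τ => OV3_G c (OV1_e k⁻¹, (x, τ)) := fun x => by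
    funext τ
    exact OV3_am c k x τ
  have elx : ∀ τ : ℝ, (fun x => Real.log (Dk k x τ)) = fun x => OV3_L (OV1_e k⁻¹, (x, τ)) :=
    fun τ => by
      funext x
      rw [OV3_Dk]
      rfl
  have elt : ∀ x : ℝ, (fun τ => Real.log (Dk k x τ)) = fun τ => OV3_L (OV1_e k⁻¹, (x, τ)) :=
    fun x => by
      funext τ
      rw [OV3_Dk]
      rfl
  refine ⟨hDpos, ?_, ?_, ?_⟩
  · intro τ
    constructor
    · rw [eax, ← contDiffOn_univ]
      exact hG.comp (hcx τ).contDiffOn fun x _ => hmU x τ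
    · rw [elx, ← contDiffOn_univ]
      exact OV3_Ls.comp (hcx τ).contDiffOn fun x _ => hmU x τ
  · intro x
    constructor
    · rw [eat, ← contDiffOn_univ]
      exact hG.comp (hct x).contDiffOn fun τ _ => hmU x τ
    · rw [elt, ← contDiffOn_univ]
      exact OV3_Ls.comp (hct x).contDiffOn fun τ _ => hmU x τ
  · intro x τ hx hτ
    have hdet0 := OV1_det k
    have hdet : k.1 0 0 * k.1 1 1 - k.1 0 1 * k.1 1 0 = 1 := hdet0
    have hlow := OV3_low (k.1 0 0) (k.1 0 1) (k.1 1 0) (k.1 1 1) x τ (hk 0 0) (hk 0 1) (hk 1 0)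
      (hk 1 1) hdet hx hτ
    have hmK : ((OV1_e k⁻¹, (x, τ)) : OV3_E) ∈ KK := by
      obtain ⟨i1, i2, i3, i4⟩ := OV3_inv k
      rw [hKK]
      refine ⟨⟨⟨?_, ?_, ?_, ?_⟩, abs_le.1 hx, abs_le.1 hτ⟩, OV1_det k⁻¹⟩
      · show (k⁻¹ : SL(2, ℝ)) 0 0 ∈ Icc (-3 : ℝ) 3
        rw [i1]
        exact abs_le.1 (hk 1 1)
      · show (k⁻¹ : SL(2, ℝ)) 0 1 ∈ Icc (-3 : ℝ) 3
        rw [i2]
        exact abs_le.1 (by rw [abs_neg]; exact hk 0 1)
      · show (k⁻¹ : SL(2, ℝ)) 1 0 ∈ Icc (-3 : ℝ) 3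
        rw [i3]
        exact abs_le.1 (by rw [abs_neg]; exact hk 1 0)
      · show (k⁻¹ : SL(2, ℝ)) 1 1 ∈ Icc (-3 : ℝ) 3
        rw [i4]
        exact abs_le.1 (hk 0 0)
    refine ⟨hlow.1, hlow.2, ?_, ?_, ?_, (OV3_dx k x τ (hDpos x τ)).deriv,
      (OV3_dt k x τ (hDpos x τ)).deriv⟩
    · have h1 := hb1 0 (by norm_num) _ (OV3_lx (OV1_e k⁻¹) τ) (fun x => hmU x τ) x hmK
      rw [iteratedDeriv_zero] at h1
      rw [OV3_am]
      linarith
    · intro j _ hj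
      constructor
      · have h1 := hb1 j hj _ (OV3_lx (OV1_e k⁻¹) τ) (fun x => hmU x τ) x hmK
        rw [eax]
        linarith
      · have h1 := hb2 j hj _ (OV3_lt (OV1_e k⁻¹) x) (fun τ => hmU x τ) τ hmK
        rw [eat]
        linarith
    · intro j hj1 hj
      constructor
      · obtain ⟨i, rfl⟩ : ∃ i, j = i + 1 := ⟨j - 1, by omega⟩
        rw [iteratedDeriv_succ']
        have h1 : deriv (fun x => Real.log (Dk k x τ)) =
            fun x => (-2 * k.1 1 0) * OV3_H (OV1_e k⁻¹, (x, τ)) := by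
          funext y
          rw [(OV3_dx k y τ (hDpos y τ)).deriv]
          obtain ⟨_, _, i3, i4⟩ := OV3_inv k
          have h2 : OV3_H (OV1_e k⁻¹, (y, τ)) = (k.1 0 0 - k.1 1 0 * y) * (Dk k y τ)⁻¹ := by
            unfold OV3_H
            rw [← OV3_Dk]
            show ((k⁻¹ : SL(2, ℝ)) 1 0 * y + (k⁻¹ : SL(2, ℝ)) 1 1) * (Dk k y τ)⁻¹ = _
            rw [i3, i4]
            ring
          rw [h2]
          ring
        rw [h1, iteratedDeriv_const_mul_field, abs_mul]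
        have h3 := hb4 i (by omega) _ (OV3_lx (OV1_e k⁻¹) τ) (fun x => hmU x τ) x hmK
        rw [Real.norm_eq_abs] at h3
        have h4 : |(-2 : ℝ) * k.1 1 0| = 2 * |k.1 1 0| := by
          rw [abs_mul]
          norm_num
        rw [h4]
        have h5 : 0 ≤ |k.1 1 0| := abs_nonneg _
        calc 2 * |k.1 1 0| * |iteratedDeriv i (fun x => OV3_H (OV1_e k⁻¹, (x, τ))) x| ≤
            2 * |k.1 1 0| * M4 := mul_le_mul_of_nonneg_left h3 (by positivity)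
          _ = (2 * M4) * |k.1 1 0| := by ring
          _ ≤ (1 + M1 + M2 + M3 + 2 * M4) * |k.1 1 0| :=
            mul_le_mul_of_nonneg_right (by linarith) h5
      · have h1 := hb3 j hj _ (OV3_lt (OV1_e k⁻¹) x) (fun τ => hmU x τ) τ hmK
        rw [Real.norm_eq_abs] at h1
        rw [elt]
        linarith

end

end Pool.Agent.MS
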