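import Pool.Agent.helper57.MS.Spec2

/-! # ms:FIN (helper49): the final statement -/

set_option autoImplicit false

open Finset

namespace Pool.Agent.helper57.MS

open Pool.Agent.RRank Pool.Agent.helper26.IM

theorem FIN_finite (d : ℕ) : Finite (IndexPartition d) := by
  have hinj : Function.Injective (fun P : IndexPartition d => P.parts) := by
    intro P P' h
    exact Finpartition.ext h
  exact Finite.of_injective _ hinj

theorem FIN_two (hTH4 : TH4_stmt) (d l : ℕ) (P₁ P₂ : IndexPartition d) : ∃ G : ℕ, 0 < d →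
    ∀ (K : Type) (_ : Field K) (Q : Fin d → Type) [∀ α, Finite (Q α)]
    (T : ((α : Fin d) → Q α) → K), (G : ℕ∞) ≤ rank ({P₁, P₂} : Set (IndexPartition d)) T →
    ∃ X : (α : Fin d) → Finset (Q α), (∀ α, (X α).card ≤ l) ∧
      (l : ℕ∞) ≤ rank ({P₁, P₂} : Set (IndexPartition d)) (minor T X) := by
  by_cases hd : 0 < d
  · obtain ⟨G, hG⟩ := hTH4 d hd (fun _ _ _ => True) P₁ P₂ l
    exact ⟨G, fun _ K iK Q _ T h => hG K iK trivial Q T h⟩
  · exact ⟨0, fun h => absurd h hd⟩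

theorem FIN_bound (hTH4 : TH4_stmt) (d l : ℕ) : ∃ G : ℕ, 0 < d → ∀ P₁ P₂ : IndexPartition d,
    ∀ (K : Type) (_ : Field K) (Q : Fin d → Type) [∀ α, Finite (Q α)]
    (T : ((α : Fin d) → Q α) → K), (G : ℕ∞) ≤ rank ({P₁, P₂} : Set (IndexPartition d)) T →
    ∃ X : (α : Fin d) → Finset (Q α), (∀ α, (X α).card ≤ l) ∧
      (l : ℕ∞) ≤ rank ({P₁, P₂} : Set (IndexPartition d)) (minor T X) := by
  haveI := FIN_finite d
  choose g hg using FIN_two hTH4 d l
  obtain ⟨B, hB⟩ := (Set.finite_range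
    (fun p : IndexPartition d × IndexPartition d => g p.1 p.2)).bddAbove
  refine ⟨B, fun hd P₁ P₂ K iK Q _ T h => hg P₁ P₂ hd K iK Q T (le_trans ?_ h)⟩
  exact_mod_cast hB ⟨(P₁, P₂), rfl⟩

theorem FIN (hTH4 : TH4_stmt) (hTH1 : TH1_stmt) : FIN_stmt := by
  obtain ⟨G1, hG1⟩ := hTH1
  choose G2 hG2 using FIN_bound hTH4
  refine ⟨fun d l => max (G1 d l) (G2 d l), ?_⟩
  intro d l hd R hR K iK hRK Q iQ T hT
  haveI := FIN_finite d
  rcases hRK with h2 | ⟨hl, hS⟩
  · have hT2 : (G2 d l : ℕ∞) ≤ rank R T := by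
      refine le_trans ?_ hT
      exact_mod_cast le_max_right (G1 d l) (G2 d l)
    have hpos : 0 < R.ncard := (Set.ncard_pos R.toFinite).2 hR
    have hcase : R.ncard = 1 ∨ R.ncard = 2 := by omega
    rcases hcase with h1 | h1
    · obtain ⟨P, hP⟩ := Set.ncard_eq_one.1 h1
      have hPP : R = ({P, P} : Set (IndexPartition d)) := by
        rw [hP, Set.pair_eq_singleton]
      rw [hPP] at hT2 ⊢
      exact hG2 d l hd P P K iK Q T hT2
    · obtain ⟨P, P', _, hP⟩ := Set.ncard_eq_two.1 h1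
      rw [hP] at hT2 ⊢
      exact hG2 d l hd P P' K iK Q T hT2
  · have hT1 : (G1 d l : ℕ∞) ≤ rank R T := by
      refine le_trans ?_ hT
      exact_mod_cast le_max_left (G1 d l) (G2 d l)
    exact (hG1 d l hd R K hl Q T).2 hS hT1

end Pool.Agent.helper57.MS
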