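import Pool.Agent.helper57.MS.Spec

set_option autoImplicit false

/-!
# Row ms:SRK: ranks with respect to refinements
-/

open Finset

namespace Pool.Agent.helper57.MS

open Pool.Agent.RRank Pool.Agent.helper26.IM

theorem SRK_one {K : Type} [Field K] {d : ℕ} {Q : Fin d → Type}
    {R R' : Set (IndexPartition d)} (hR : ∀ P' ∈ R', ∃ P ∈ R, P' ≤ P)
    {t : ((α : Fin d) → Q α) → K} (ht : RankLEOne R' t) : RankLEOne R t := by
  classical
  obtain ⟨P', hP', b, hb, htx⟩ := rankLEOne_iff.1 ht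
  obtain ⟨P, hP, hle⟩ := hR P' hP'
  refine rankLEOne_iff.2 ⟨P, hP, fun J x => ∏ I ∈ P'.parts.filter (fun I => I ⊆ J), b I x, ?_, ?_⟩
  · intro J _ x y hxy
    show ∏ I ∈ P'.parts.filter (fun I => I ⊆ J), b I x =
      ∏ I ∈ P'.parts.filter (fun I => I ⊆ J), b I y
    apply Finset.prod_congr rfl
    intro I hI
    obtain ⟨hI1, hI2⟩ := Finset.mem_filter.1 hI
    exact hb I hI1 (fun i hi => hxy i (hI2 hi))
  · intro x
    rw [htx x]
    have hU : P'.parts = P.parts.biUnion (fun J => P'.parts.filter (fun I => I ⊆ J)) := by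
      ext I
      rw [Finset.mem_biUnion]
      constructor
      · intro hI
        obtain ⟨J, hJ, hIJ⟩ := hle hI
        exact ⟨J, hJ, Finset.mem_filter.2 ⟨hI, hIJ⟩⟩
      · rintro ⟨J, _, hI⟩
        exact (Finset.mem_filter.1 hI).1
    rw [hU, Finset.prod_biUnion]
    · apply Finset.prod_congr rfl
      intro J _
      apply Finset.prod_congr _ (fun _ _ => rfl)
      rw [← hU]
    · intro J hJ J' hJ' hne
      rw [Function.onFun, Finset.disjoint_left]
      intro I hI hI'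
      obtain ⟨hI1, hI2⟩ := Finset.mem_filter.1 hI
      obtain ⟨_, hI3⟩ := Finset.mem_filter.1 hI'
      obtain ⟨a, ha⟩ := P'.nonempty_of_mem_parts hI1
      have hd : Disjoint J J' := P.disjoint hJ hJ' hne
      exact (Finset.disjoint_left.1 hd) (hI2 ha) (hI3 ha)

theorem SRK : SRK_stmt := by
  intro K _ d Q R R' hR T
  have h1 : ∀ r : ℕ, SumOf R' T r → SumOf R T r := by
    rintro r ⟨t, ht, hT⟩
    exact ⟨t, fun i => SRK_one hR (ht i), hT⟩
  refine ⟨h1, ?_⟩
  unfold rank
  apply sInf_le_sInf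
  rintro _ ⟨k, rfl, hk⟩
  exact ⟨k, rfl, h1 k hk⟩

end Pool.Agent.helper57.MS
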